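import Pool.Agent.Helper90.Aniso.Main

/-! A 3-dimensional pseudomanifold none of whose Artinian reductions over a field of
characteristic different from two is totally anisotropic. -/

namespace Pool.Agent.Results.MP_e51eb1_co.NotAnisotropic

open Pool.Agent.Helper90.Aniso

universe u

/-- There is a 3-dimensional pseudomanifold `S` on 11 vertices such that over every field `K` of
characteristic different from two: `H_3(S; K) ≠ 0`; and for every linear system of parameters of
`K[S]` with quotient `A`, the space `A^4` is a line, there is `u ∈ A^2` with `u ^ 2 = 0` that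
pairs nontrivially with some `v ∈ A^2`, and `A / L` is not totally anisotropic, whichever nonzero
functional on `A^4` is used to define the pairing and its radical `L`. -/
theorem result : ∃ S : AbstractSimplicialComplex (Fin 11), IsPseudomanifold S 4 ∧
    ∀ (K : Type u) [Field K], (2 : K) ≠ 0 →
      HasFundamentalClass K S 4 ∧
      ∀ a : Fin 4 → Fin 11 → K, IsLinearSOP S a →
        TopIsLine S a ∧ HasIsotropic S a 2 ∧
        ∀ ε : Reduction S a →ₗ[K] K, NonzeroOnTop ε → ¬ TotallyAnisotropic ε :=
  ⟨cplx, cplx_pseudo, fun K _ h2 => ⟨cplx_class K, fun a hl =>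
    ⟨finrank_top a hl, main_elt a h2 hl, fun ε hε => main_all a h2 hl ε hε⟩⟩⟩

end Pool.Agent.Results.MP_e51eb1_co.NotAnisotropic
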